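import Pool.Agent.Helper79.GL4.GoalsR

/-!
# F28: the 28 nondegenerate alternating forms on a 4-dimensional space over the field of order 2
-/

set_option linter.unusedVariables false

namespace Pool.Agent.Helper33.F28

open Module Submodule GL4

section
variable {F : Type} [Field F] {V : Type} [AddCommGroup V] [Module F V]

/-- alternating and nondegenerate -/
def AN (w : V →ₗ[F] V →ₗ[F] F) : Prop := (∀ x, w x x = 0) ∧ ∀ x, w x = 0 → x = 0

theorem AN.skew {w : V →ₗ[F] V →ₗ[F] F} (h : AN w) (x y : V) : w x y = -w y x := by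
  have h1 := h.1 (x + y)
  simp only [map_add, LinearMap.add_apply, h.1] at h1
  linear_combination h1

/-- the set of nondegenerate alternating forms -/
def ZZ (F : Type) [Field F] (V : Type) [AddCommGroup V] [Module F V] : Type :=
  {w : V →ₗ[F] V →ₗ[F] F // AN w}

/-- the transported form -/
def tr (g : V ≃ₗ[F] V) (w : V →ₗ[F] V →ₗ[F] F) : V →ₗ[F] V →ₗ[F] F :=
  w.compl₁₂ ((g⁻¹ : V ≃ₗ[F] V) : V →ₗ[F] V) ((g⁻¹ : V ≃ₗ[F] V) : V →ₗ[F] V)

theorem tr_apply (g : V ≃ₗ[F] V) (w : V →ₗ[F] V →ₗ[F] F) (x y : V) :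
    tr g w x y = w (g⁻¹ x) (g⁻¹ y) := rfl

theorem inv_apply_self (g : V ≃ₗ[F] V) (x : V) : g⁻¹ (g x) = x := g.symm_apply_apply x

theorem apply_inv_self (g : V ≃ₗ[F] V) (x : V) : g (g⁻¹ x) = x := g.apply_symm_apply x

theorem tr_AN (g : V ≃ₗ[F] V) {w : V →ₗ[F] V →ₗ[F] F} (h : AN w) : AN (tr g w) := by
  refine ⟨fun x => h.1 _, fun x hx => ?_⟩
  have h1 : w (g⁻¹ x) = 0 := by
    ext y
    have h2 := LinearMap.congr_fun hx (g y)
    rw [tr_apply, inv_apply_self] at h2
    exact h2
  have h3 := h.2 _ h1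
  have h4 := congrArg g h3
  rwa [apply_inv_self, map_zero] at h4

instance : MulAction (V ≃ₗ[F] V) (ZZ F V) where
  smul g w := ⟨tr g w.1, tr_AN g w.2⟩
  one_smul w := by
    apply Subtype.ext
    ext x y
    rfl
  mul_smul g h w := by
    apply Subtype.ext
    ext x y
    show w.1 ((g * h)⁻¹ x) ((g * h)⁻¹ y) = w.1 (h⁻¹ (g⁻¹ x)) (h⁻¹ (g⁻¹ y))
    rw [mul_inv_rev]
    rfl

theorem smul_val (g : V ≃ₗ[F] V) (w : ZZ F V) (x y : V) :
    (g • w).1 x y = w.1 (g⁻¹ x) (g⁻¹ y) := rfl

instance [Finite F] [FiniteDimensional F V] : Finite (ZZ F V) := by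
  have h1 : Finite V := Module.finite_of_finite F
  have h2 : Finite (V → V → F) := inferInstance
  apply Finite.of_injective (fun w : ZZ F V => fun x y => w.1 x y)
  intro w w' h
  apply Subtype.ext
  ext x y
  exact congrFun (congrFun h x) y

/-- the Gram data of a quadruple of vectors -/
def six (w : V →ₗ[F] V →ₗ[F] F) (v : Fin 4 → V) : Fin 6 → F :=
  ![w (v 0) (v 1), w (v 0) (v 2), w (v 0) (v 3), w (v 1) (v 2), w (v 1) (v 3), w (v 2) (v 3)]

/-- Two alternating forms with the same Gram data. -/
theorem gram_eq {w w' : V →ₗ[F] V →ₗ[F] F} (h : AN w) (h' : AN w') {v v' : Fin 4 → V}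
    (hs : six w v = six w' v') (i j : Fin 4) : w (v i) (v j) = w' (v' i) (v' j) := by
  have e0 := congrFun hs 0
  have e1 := congrFun hs 1
  have e2 := congrFun hs 2
  have e3 := congrFun hs 3
  have e4 := congrFun hs 4
  have e5 := congrFun hs 5
  simp only [six] at e0 e1 e2 e3 e4 e5
  simp at e0 e1 e2 e3 e4 e5
  fin_cases i <;> fin_cases j <;>
    simp only [Fin.zero_eta, Fin.mk_one, Fin.reduceFinMk, Fin.isValue] <;>
    first
    | rw [h.1, h'.1]
    | assumption
    | (rw [h.skew, h'.skew]; congr 1)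

/-- Conjugation of pairs of forms. -/
theorem conj_pair [FiniteDimensional F V] (h4 : finrank F V = 4) (w1 w2 w1' w2' : ZZ F V)
    (v v' : Fin 4 → V) (hv : LinearIndependent F v) (hv' : LinearIndependent F v')
    (h1 : six w1.1 v = six w2.1 v') (h2 : six w1'.1 v = six w2'.1 v') :
    ∃ g : V ≃ₗ[F] V, g • w1 = w2 ∧ g • w1' = w2' := by
  have hc : Fintype.card (Fin 4) = finrank F V := by rw [h4]; rfl
  let b := basisOfLinearIndependentOfCardEqFinrank hv hc
  let b' := basisOfLinearIndependentOfCardEqFinrank hv' hc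
  have hb : ∀ i, b i = v i := fun i => by
    simp only [b, coe_basisOfLinearIndependentOfCardEqFinrank]
  have hb' : ∀ i, b' i = v' i := fun i => by
    simp only [b', coe_basisOfLinearIndependentOfCardEqFinrank]
  let g : V ≃ₗ[F] V := b.equiv b' (Equiv.refl _)
  have hg : ∀ i, g (v i) = v' i := by
    intro i
    rw [← hb, ← hb']
    exact b.equiv_apply i b' (Equiv.refl _)
  have hg' : ∀ i, g⁻¹ (v' i) = v i := by
    intro i
    rw [← hg i, inv_apply_self]
  have key : ∀ (u u' : ZZ F V), six u.1 v = six u'.1 v' → g • u = u' := by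
    intro u u' hs
    apply Subtype.ext
    apply b'.ext
    intro i
    apply b'.ext
    intro j
    rw [smul_val, hb', hb', hg', hg']
    exact gram_eq u.2 u'.2 hs i j
  exact ⟨g, key _ _ h1, key _ _ h2⟩

/-- A quadruple with the standard Gram data is linearly independent. -/
theorem li_of_std {w : V →ₗ[F] V →ₗ[F] F} (h : AN w) {v : Fin 4 → V}
    (hs : six w v = ![1, 0, 0, 0, 0, 1]) : LinearIndependent F v := by
  rw [Fintype.linearIndependent_iff]
  intro c hc
  have e0 := congrFun hs 0
  have e1 := congrFun hs 1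
  have e2 := congrFun hs 2
  have e3 := congrFun hs 3
  have e4 := congrFun hs 4
  have e5 := congrFun hs 5
  simp only [six] at e0 e1 e2 e3 e4 e5
  simp at e0 e1 e2 e3 e4 e5
  rw [Fin.sum_univ_four] at hc
  have key : ∀ y, c 0 * w (v 0) y + c 1 * w (v 1) y + c 2 * w (v 2) y + c 3 * w (v 3) y = 0 := by
    intro y
    have := LinearMap.congr_fun (congrArg w hc) y
    simpa using this
  have k0 := key (v 0)
  have k1 := key (v 1)
  have k2 := key (v 2)
  have k3 := key (v 3)
  rw [h.1, h.skew (v 1) (v 0), h.skew (v 2) (v 0), h.skew (v 3) (v 0), e0, e1, e2] at k0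
  rw [h.1, e0, h.skew (v 2) (v 1), h.skew (v 3) (v 1), e3, e4] at k1
  rw [h.1, e1, e3, h.skew (v 3) (v 2), e5] at k2
  rw [h.1, e2, e4, e5] at k3
  simp at k0 k1 k2 k3
  intro i
  fin_cases i
  · exact k1
  · exact k0
  · exact k3
  · exact k2

/-! ### The field with two elements -/

theorem two_field (h2 : Nat.card F = 2) : (∀ a : F, a = 0 ∨ a = 1) ∧ (1 : F) + 1 = 0 := by
  classical
  have hfin : Finite F := Nat.finite_of_card_ne_zero (by omega)
  let _ : Fintype F := Fintype.ofFinite F
  have hc : Fintype.card F = 2 := by rw [← Nat.card_eq_fintype_card]; exact h2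
  have hall : ∀ a : F, a = 0 ∨ a = 1 := by
    intro a
    by_contra hcon
    push Not at hcon
    have h3 : ({0, 1, a} : Finset F).card ≤ Fintype.card F := Finset.card_le_univ _
    have h4 : ({0, 1, a} : Finset F).card = 3 := by
      rw [Finset.card_eq_three]
      exact ⟨0, 1, a, zero_ne_one, hcon.1.symm, hcon.2.symm, rfl⟩
    omega
  refine ⟨hall, ?_⟩
  rcases hall (1 + 1) with h | h
  · exact h
  · have : (1 : F) = 0 := by
      have h5 : (1 : F) + 1 = 1 + 0 := by rw [h, add_zero]
      exact add_left_cancel h5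
    exact absurd this one_ne_zero

variable (hF : ∀ a : F, a = 0 ∨ a = 1) (h11 : (1 : F) + 1 = 0)

include h11 in
theorem dbl (a : F) : a + a = 0 := by linear_combination a * h11

include h11 in
theorem neg_self_eq (a : F) : -a = a := by linear_combination -a * h11

include h11 in
theorem vdbl (x : V) : x + x = 0 := by
  rw [← one_smul F x, ← add_smul, h11, zero_smul]

include h11 in
theorem AN.symm' {w : V →ₗ[F] V →ₗ[F] F} (h : AN w) (x y : V) : w x y = w y x := by
  rw [h.skew, neg_self_eq h11]

include hF h11 in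
/-- two different nonzero functionals -/
theorem exists_sep {f g : V →ₗ[F] F} (hf : f ≠ 0) (hg : g ≠ 0) (hfg : f ≠ g) :
    ∃ y, f y = 1 ∧ g y = 0 := by
  by_contra hcon
  push Not at hcon
  have hall : ∀ y, g y = 0 → f y = 0 := by
    intro y hy
    rcases hF (f y) with h | h
    · exact h
    · exact absurd hy (hcon y h)
  obtain ⟨a, ha⟩ : ∃ a, f a = 1 := by
    by_contra hno
    push Not at hno
    apply hf
    ext y
    rcases hF (f y) with h | h
    · simpa using h
    · exact absurd h (hno y)
  have hga : g a = 1 := by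
    rcases hF (g a) with h | h
    · exact absurd h (hcon a ha)
    · exact h
  apply hfg
  ext y
  rcases hF (g y) with h | h
  · rw [h, hall y h]
  · have h1 : g (y + a) = 0 := by rw [map_add, h, hga, h11]
    have h2 := hall _ h1
    rw [map_add, ha] at h2
    rw [h]
    linear_combination h2 - h11

include hF in
theorem exists_one {f : V →ₗ[F] F} (hf : f ≠ 0) : ∃ y, f y = 1 := by
  by_contra hno
  push Not at hno
  apply hf
  ext y
  rcases hF (f y) with h | h
  · simpa using h
  · exact absurd h (hno y)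

include hF h11 in
/-- Extension of a nonzero vector to a symplectic basis. -/
theorem exists_symp [FiniteDimensional F V] (h4 : finrank F V = 4) {w : V →ₗ[F] V →ₗ[F] F}
    (h : AN w) {x : V} (hx : x ≠ 0) : ∃ y a b : V, w x y = 1 ∧ w a b = 1 ∧ w x a = 0 ∧ w x b = 0 ∧
      w y a = 0 ∧ w y b = 0 := by
  obtain ⟨y, hy⟩ := exists_one hF (f := w x) (fun h0 => hx (h.2 x h0))
  have hyx : w y x = 1 := by rw [h.symm' h11, hy]
  have hadj : ∀ v, w x (v + (w x v) • y + (w y v) • x) = 0 ∧
      w y (v + (w x v) • y + (w y v) • x) = 0 := by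
    intro v
    constructor
    · simp only [map_add, map_smul, smul_eq_mul, hy, h.1 x]
      linear_combination (w x v) * h11
    · simp only [map_add, map_smul, smul_eq_mul, hyx, h.1 y]
      linear_combination (w y v) * h11
  obtain ⟨v, hv⟩ : ∃ v, v ∉ span F ({x, y} : Set V) := by
    by_contra hcon
    push Not at hcon
    have htop : span F ({x, y} : Set V) = ⊤ := eq_top_iff.2 (fun v _ => hcon v)
    have h1 : finrank F (span F ({x, y} : Set V)) ≤ 2 := by
      classical
      have h5 := finrank_span_finset_le_card (R := F) ({x, y} : Finset V)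
      have h6 : (({x, y} : Finset V) : Set V) = {x, y} := by simp
      rw [h6] at h5
      have h7 : ({x, y} : Finset V).card ≤ 2 := Finset.card_le_two
      exact h5.trans h7
    rw [htop, finrank_top] at h1
    omega
  set a := v + (w x v) • y + (w y v) • x with ha
  have ha0 : a ≠ 0 := by
    intro h0
    apply hv
    have : v = -((w y v) • x + (w x v) • y) := by
      have h8 : v + ((w x v) • y + (w y v) • x) = 0 := by rw [← add_assoc, ← ha, h0]
      rw [add_comm ((w y v) • x)]
      exact eq_neg_of_add_eq_zero_left h8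
    rw [this]
    apply Submodule.neg_mem
    apply Submodule.add_mem
    · exact Submodule.smul_mem _ _ (subset_span (by simp))
    · exact Submodule.smul_mem _ _ (subset_span (by simp))
  obtain ⟨b0, hb0⟩ := exists_one hF (f := w a) (fun h0 => ha0 (h.2 a h0))
  refine ⟨y, a, b0 + (w x b0) • y + (w y b0) • x, hy, ?_, (hadj v).1, (hadj b0).1, (hadj v).2,
    (hadj b0).2⟩
  have e1 : w a x = 0 := by rw [h.symm' h11]; exact (hadj v).1
  have e2 : w a y = 0 := by rw [h.symm' h11]; exact (hadj v).2
  simp only [map_add, map_smul, smul_eq_mul, hb0, e1, e2]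
  ring

/-- A functional vanishing on a basis is zero. -/
theorem eq_zero_of_std [FiniteDimensional F V] (h4 : finrank F V = 4) {w : V →ₗ[F] V →ₗ[F] F}
    (h : AN w) {v : Fin 4 → V} (hs : six w v = ![1, 0, 0, 0, 0, 1]) {f : V →ₗ[F] F}
    (h0 : f (v 0) = 0) (h1 : f (v 1) = 0) (h2 : f (v 2) = 0) (h3 : f (v 3) = 0) : f = 0 := by
  have hc : Fintype.card (Fin 4) = finrank F V := by rw [h4]; rfl
  let b := basisOfLinearIndependentOfCardEqFinrank (li_of_std h hs) hc
  apply b.ext
  intro i
  have hb : b i = v i := by simp only [b, coe_basisOfLinearIndependentOfCardEqFinrank]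
  rw [hb, LinearMap.zero_apply]
  fin_cases i
  · exact h0
  · exact h1
  · exact h2
  · exact h3

/-- Gram data of the second form -/
def cc : Fin 3 → Fin 6 → F := ![![1, 0, 0, 0, 0, 1], ![1, 0, 0, 0, 1, 1], ![0, 0, 1, 1, 0, 1]]

include hF h11 in
/-- The classification of the pairs of forms. -/
theorem classify [FiniteDimensional F V] (h4 : finrank F V = 4) {w w' : V →ₗ[F] V →ₗ[F] F}
    (h : AN w) (h' : AN w') : ∃ (i : Fin 3) (v : Fin 4 → V), six w v = ![1, 0, 0, 0, 0, 1] ∧
      six w' v = cc i := by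
  have hs := h.symm' h11
  have hs' := h'.symm' h11
  have hdb := dbl h11
  obtain ⟨x0, hx0⟩ : ∃ x : V, x ≠ 0 := by
    have : Nontrivial V := by
      apply Module.nontrivial_of_finrank_pos (R := F)
      omega
    exact exists_ne 0
  by_cases hww : w = w'
  · subst hww
    obtain ⟨y, a, b, e1, e2, e3, e4, e5, e6⟩ := exists_symp hF h11 h4 h hx0
    refine ⟨0, ![x0, y, a, b], ?_, ?_⟩ <;> simp [six, cc, e1, e2, e3, e4, e5, e6]
  by_cases hR : ∃ x, x ≠ 0 ∧ w x = w' x
  · -- the difference has a radical
    obtain ⟨x, hx, hxx⟩ := hR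
    obtain ⟨y, a, b, e1, e2, e3, e4, e5, e6⟩ := exists_symp hF h11 h4 h hx
    have hstd : six w ![x, y, a, b] = ![1, 0, 0, 0, 0, 1] := by
      simp [six, e1, e2, e3, e4, e5, e6]
    have f1 : w' x y = 1 := by rw [← hxx]; exact e1
    have f3 : w' x a = 0 := by rw [← hxx]; exact e3
    have f4 : w' x b = 0 := by rw [← hxx]; exact e4
    have f2 : w' a b = 1 := by
      rcases hF (w' a b) with hab | hab
      · exfalso
        have hz : w' (a + (w' y a) • x) = 0 := by
          apply eq_zero_of_std h4 h hstd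
          · show w' (a + (w' y a) • x) x = 0
            simp only [map_add, map_smul, LinearMap.add_apply, LinearMap.smul_apply, smul_eq_mul,
              h'.1 x]
            rw [hs' a x, f3]
            ring
          · show w' (a + (w' y a) • x) y = 0
            simp only [map_add, map_smul, LinearMap.add_apply, LinearMap.smul_apply, smul_eq_mul,
              f1]
            rw [hs' a y, mul_one]
            exact hdb _
          · show w' (a + (w' y a) • x) a = 0
            simp only [map_add, map_smul, LinearMap.add_apply, LinearMap.smul_apply, smul_eq_mul,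
              h'.1 a, f3]
            ring
          · show w' (a + (w' y a) • x) b = 0
            simp only [map_add, map_smul, LinearMap.add_apply, LinearMap.smul_apply, smul_eq_mul,
              hab, f4]
            ring
        have hz2 := h'.2 _ hz
        have hz3 : w (a + (w' y a) • x) b = 0 := by rw [hz2]; simp
        simp only [map_add, map_smul, LinearMap.add_apply, LinearMap.smul_apply, smul_eq_mul,
          e2, e4, mul_zero, add_zero] at hz3
        exact one_ne_zero hz3
      · exact hab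
    rcases hF (w' y a) with g1 | g1
    · rcases hF (w' y b) with g2 | g2
      · exfalso
        apply hww
        have hd : ∀ i j : Fin 4, w (![x, y, a, b] i) (![x, y, a, b] j) =
            w' (![x, y, a, b] i) (![x, y, a, b] j) := by
          intro i j
          apply gram_eq h h'
          simp [six, e1, e2, e3, e4, e5, e6, f1, f2, f3, f4, g1, g2]
        have hc : Fintype.card (Fin 4) = finrank F V := by rw [h4]; rfl
        let bb := basisOfLinearIndependentOfCardEqFinrank (li_of_std h hstd) hc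
        have hbb : ∀ i, bb i = (![x, y, a, b] : Fin 4 → V) i := fun i => by
          simp only [bb, coe_basisOfLinearIndependentOfCardEqFinrank]
        apply bb.ext
        intro i
        apply bb.ext
        intro j
        rw [hbb, hbb]
        exact hd i j
      · refine ⟨1, ![x, y, a, b], hstd, ?_⟩
        simp [six, cc, f1, f2, f3, f4, g1, g2]
    · rcases hF (w' y b) with g2 | g2
      · refine ⟨1, ![x, y, b, a], ?_, ?_⟩
        · simp [six, e1, e3, e4, e5, e6, hs b a, e2]
        · simp [six, cc, f1, f3, f4, g1, g2, hs' b a, f2]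
      · refine ⟨1, ![x, y, a + b, b], ?_, ?_⟩
        · simp [six, e1, e3, e4, e5, e6, e2, h.1 b]
        · simp [six, cc, f1, f3, f4, g1, g2, f2, h'.1 b, h11]
  · -- the pencil consists of nondegenerate forms
    push Not at hR
    have hx0' : w x0 ≠ 0 := fun h0 => hx0 (h.2 _ h0)
    have hx0'' : w' x0 ≠ 0 := fun h0 => hx0 (h'.2 _ h0)
    obtain ⟨n, hn⟩ : ∃ n, w n = w' x0 := by
      have hinj : Function.Injective w := by
        rw [← LinearMap.ker_eq_bot, LinearMap.ker_eq_bot']
        exact fun m hm => h.2 m hm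
      have hsur := (LinearMap.injective_iff_surjective_of_finrank_eq_finrank
        (Subspace.dual_finrank_eq (K := F) (V := V)).symm (f := w)).1 hinj
      exact hsur (w' x0)
    have hn0 : n ≠ 0 := by
      intro h0
      rw [h0, map_zero] at hn
      exact hx0'' hn.symm
    have hnw : w n ≠ 0 := fun h0 => hn0 (h.2 _ h0)
    have hne : w x0 ≠ w n := by rw [hn]; exact hR x0 hx0
    have hxn : x0 ≠ n := fun h0 => hne (by rw [← h0])
    obtain ⟨y, hy1, hy2⟩ := exists_sep hF h11 hx0' hnw hne
    obtain ⟨z0, hz01, hz00⟩ := exists_sep hF h11 hnw hx0' hne.symm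
    -- values
    have a1 : w n x0 = 0 := by rw [hn]; exact h'.1 x0
    have a2 : w x0 n = 0 := by rw [hs, a1]
    have a3 : w' x0 n = 0 := by rw [← hn]; exact h.1 n
    have a4 : w' n x0 = 0 := by rw [hs', a3]
    have a5 : w' x0 y = 0 := by rw [← hn]; exact hy2
    have a6 : w y x0 = 1 := by rw [hs, hy1]
    have a7 : w y n = 0 := by rw [hs, hy2]
    have a8 : w' x0 z0 = 1 := by rw [← hn]; exact hz01
    set z := z0 + (w y z0) • x0 with hz
    have b1 : w x0 z = 0 := by
      simp only [hz, map_add, map_smul, smul_eq_mul, hz00, h.1 x0]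
      ring
    have b2 : w n z = 1 := by
      simp only [hz, map_add, map_smul, smul_eq_mul, hz01, a1]
      ring
    have b3 : w y z = 0 := by
      simp only [hz, map_add, map_smul, smul_eq_mul, a6, mul_one]
      exact hdb _
    have b4 : w' x0 z = 1 := by
      simp only [hz, map_add, map_smul, smul_eq_mul, a8, h'.1 x0]
      ring
    have hstd : six w ![x0, y, n, z] = ![1, 0, 0, 0, 0, 1] := by
      simp [six, hy1, a2, b1, a7, b3, b2]
    have p1 : w' n y = 1 := by
      rcases hF (w' n y) with hp | hp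
      · exfalso
        rcases hF (w' n z) with hq | hq
        · exact hn0 (h'.2 n (eq_zero_of_std h4 h hstd a4 hp (h'.1 n) hq))
        · have hadd : ∀ u, w' (n + x0) u = w' n u + w' x0 u := fun u => by
            rw [map_add w' n x0]; rfl
          have h0 : w' (n + x0) = 0 := by
            apply eq_zero_of_std h4 h hstd
            · show w' (n + x0) x0 = 0
              rw [hadd, a4, h'.1, add_zero]
            · show w' (n + x0) y = 0
              rw [hadd, hp, a5, add_zero]
            · show w' (n + x0) n = 0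
              rw [hadd, h'.1, a3, add_zero]
            · show w' (n + x0) z = 0
              rw [hadd, hq, b4, h11]
          have h1 := h'.2 _ h0
          apply hxn
          have h2 := vdbl h11 x0
          have h3 : x0 + x0 = n + x0 := by rw [h2, h1]
          exact add_right_cancel h3
      · exact hp
    have q1 : w' n z = 1 := by
      rcases hF (w' n z) with hq | hq
      · exfalso
        have h0 : w (n + x0) - w' (n + x0) = 0 := by
          apply eq_zero_of_std h4 h hstd
          · show (w (n + x0) - w' (n + x0)) x0 = 0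
            simp only [map_add, LinearMap.sub_apply, LinearMap.add_apply, a1, h.1, a4, h'.1]
            ring
          · show (w (n + x0) - w' (n + x0)) y = 0
            simp only [map_add, LinearMap.sub_apply, LinearMap.add_apply, hy2, hy1, p1, a5]
            ring
          · show (w (n + x0) - w' (n + x0)) n = 0
            simp only [map_add, LinearMap.sub_apply, LinearMap.add_apply, h.1, a2, h'.1, a3]
            ring
          · show (w (n + x0) - w' (n + x0)) z = 0
            simp only [map_add, LinearMap.sub_apply, LinearMap.add_apply, b2, b1, hq, b4]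
            ring
        have h1 : w (n + x0) = w' (n + x0) := sub_eq_zero.1 h0
        have h2 : n + x0 = 0 := by
          by_contra h3
          exact hR _ h3 h1
        apply hxn
        have h3 : x0 + x0 = n + x0 := by rw [vdbl h11 x0, h2]
        exact add_right_cancel h3
      · exact hq
    have c1 : w' y n = 1 := by rw [hs', p1]
    refine ⟨2, ![x0, y, n, z + (w' y z) • n], ?_, ?_⟩
    · simp [six, hy1, a2, b1, a7, b3, b2, h.1 n]
    · simp [six, cc, a5, a3, b4, c1, q1, h'.1 n, hdb]

/-! ### Counting -/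

/-- The form with given Gram data. -/
noncomputable def mk (b : Basis (Fin 4) F V) (a : Fin 6 → F) : V →ₗ[F] V →ₗ[F] F :=
  LinearMap.mk₂ F (fun x y =>
    a 0 * (b.repr x 0 * b.repr y 1 - b.repr x 1 * b.repr y 0) +
    a 1 * (b.repr x 0 * b.repr y 2 - b.repr x 2 * b.repr y 0) +
    a 2 * (b.repr x 0 * b.repr y 3 - b.repr x 3 * b.repr y 0) +
    a 3 * (b.repr x 1 * b.repr y 2 - b.repr x 2 * b.repr y 1) +
    a 4 * (b.repr x 1 * b.repr y 3 - b.repr x 3 * b.repr y 1) +
    a 5 * (b.repr x 2 * b.repr y 3 - b.repr x 3 * b.repr y 2))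
    (by intro x x' y; simp only [map_add, Finsupp.add_apply]; ring)
    (by intro c x y; simp only [map_smul, Finsupp.smul_apply, smul_eq_mul]; ring)
    (by intro x y y'; simp only [map_add, Finsupp.add_apply]; ring)
    (by intro c x y; simp only [map_smul, Finsupp.smul_apply, smul_eq_mul]; ring)

theorem mk_apply (b : Basis (Fin 4) F V) (a : Fin 6 → F) (x y : V) : mk b a x y =
    a 0 * (b.repr x 0 * b.repr y 1 - b.repr x 1 * b.repr y 0) +
    a 1 * (b.repr x 0 * b.repr y 2 - b.repr x 2 * b.repr y 0) +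
    a 2 * (b.repr x 0 * b.repr y 3 - b.repr x 3 * b.repr y 0) +
    a 3 * (b.repr x 1 * b.repr y 2 - b.repr x 2 * b.repr y 1) +
    a 4 * (b.repr x 1 * b.repr y 3 - b.repr x 3 * b.repr y 1) +
    a 5 * (b.repr x 2 * b.repr y 3 - b.repr x 3 * b.repr y 2) := rfl

/-- the Pfaffian -/
def pf (a : Fin 6 → F) : F := a 0 * a 5 - a 1 * a 4 + a 2 * a 3

theorem six_mk (b : Basis (Fin 4) F V) (a : Fin 6 → F) : six (mk b a) b = a := by
  funext i
  fin_cases i <;> simp [six, mk_apply, Finsupp.single_apply]

theorem mk_AN (b : Basis (Fin 4) F V) (a : Fin 6 → F) (ha : pf a ≠ 0) : AN (mk b a) := by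
  constructor
  · intro x
    rw [mk_apply]
    ring
  · intro x hx
    have hj : ∀ j, mk b a x (b j) = 0 := fun j => by rw [hx]; rfl
    have k0 := hj 0
    have k1 := hj 1
    have k2 := hj 2
    have k3 := hj 3
    rw [mk_apply] at k0 k1 k2 k3
    simp [Finsupp.single_apply] at k0 k1 k2 k3
    have hrep : b.repr x = 0 := by
      ext i
      fin_cases i
      · show b.repr x 0 = 0
        apply (mul_eq_zero.1 (_ : pf a * b.repr x 0 = 0)).resolve_left ha
        unfold pf
        linear_combination a 5 * k1 - a 4 * k2 + a 3 * k3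
      · show b.repr x 1 = 0
        apply (mul_eq_zero.1 (_ : pf a * b.repr x 1 = 0)).resolve_left ha
        unfold pf
        linear_combination -a 5 * k0 + a 2 * k2 - a 1 * k3
      · show b.repr x 2 = 0
        apply (mul_eq_zero.1 (_ : pf a * b.repr x 2 = 0)).resolve_left ha
        unfold pf
        linear_combination a 4 * k0 - a 2 * k1 + a 0 * k3
      · show b.repr x 3 = 0
        apply (mul_eq_zero.1 (_ : pf a * b.repr x 3 = 0)).resolve_left ha
        unfold pf
        linear_combination -a 3 * k0 + a 1 * k1 - a 0 * k2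
    have := congrArg b.repr.symm hrep
    simpa using this

theorem coef_zero {w : V →ₗ[F] V →ₗ[F] F} (h : AN w) (b : Basis (Fin 4) F V) (c0 c1 c2 c3 : F)
    (hj : ∀ j, c0 * w (b 0) (b j) + c1 * w (b 1) (b j) + c2 * w (b 2) (b j) +
      c3 * w (b 3) (b j) = 0) : c0 = 0 ∧ c1 = 0 ∧ c2 = 0 ∧ c3 = 0 := by
  have h0 : w (c0 • b 0 + c1 • b 1 + c2 • b 2 + c3 • b 3) = 0 := by
    apply b.ext
    intro j
    simpa using hj j
  have h1 := h.2 _ h0
  have h2 := Fintype.linearIndependent_iff.1 b.linearIndependent ![c0, c1, c2, c3]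
    (by rw [Fin.sum_univ_four]; exact h1)
  exact ⟨h2 0, h2 1, h2 2, h2 3⟩

theorem pf_ne {w : V →ₗ[F] V →ₗ[F] F} (h : AN w) (b : Basis (Fin 4) F V) :
    pf (six w b) ≠ 0 := by
  intro h0
  have hp : w (b 0) (b 1) * w (b 2) (b 3) - w (b 0) (b 2) * w (b 1) (b 3) +
      w (b 0) (b 3) * w (b 1) (b 2) = 0 := h0
  have s10 := h.skew (b 1) (b 0)
  have s20 := h.skew (b 2) (b 0)
  have s30 := h.skew (b 3) (b 0)
  have s21 := h.skew (b 2) (b 1)
  have s31 := h.skew (b 3) (b 1)
  have s32 := h.skew (b 3) (b 2)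
  obtain ⟨-, r1, r2, r3⟩ := coef_zero h b 0 (-w (b 2) (b 3)) (w (b 1) (b 3)) (-w (b 1) (b 2)) (by
    intro j
    fin_cases j
    · show _ * w (b 0) (b 0) + _ * w (b 1) (b 0) + _ * w (b 2) (b 0) + _ * w (b 3) (b 0) = 0
      rw [s10, s20, s30]
      linear_combination hp
    · show _ * w (b 0) (b 1) + _ * w (b 1) (b 1) + _ * w (b 2) (b 1) + _ * w (b 3) (b 1) = 0
      rw [s21, s31, h.1]
      ring
    · show _ * w (b 0) (b 2) + _ * w (b 1) (b 2) + _ * w (b 2) (b 2) + _ * w (b 3) (b 2) = 0
      rw [s32, h.1]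
      ring
    · show _ * w (b 0) (b 3) + _ * w (b 1) (b 3) + _ * w (b 2) (b 3) + _ * w (b 3) (b 3) = 0
      rw [h.1]
      ring)
  obtain ⟨q0, -, q2, q3⟩ := coef_zero h b (w (b 2) (b 3)) 0 (-w (b 0) (b 3)) (w (b 0) (b 2)) (by
    intro j
    fin_cases j
    · show _ * w (b 0) (b 0) + _ * w (b 1) (b 0) + _ * w (b 2) (b 0) + _ * w (b 3) (b 0) = 0
      rw [s10, s20, s30, h.1]
      ring
    · show _ * w (b 0) (b 1) + _ * w (b 1) (b 1) + _ * w (b 2) (b 1) + _ * w (b 3) (b 1) = 0
      rw [s21, s31, h.1]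
      linear_combination hp
    · show _ * w (b 0) (b 2) + _ * w (b 1) (b 2) + _ * w (b 2) (b 2) + _ * w (b 3) (b 2) = 0
      rw [s32, h.1]
      ring
    · show _ * w (b 0) (b 3) + _ * w (b 1) (b 3) + _ * w (b 2) (b 3) + _ * w (b 3) (b 3) = 0
      rw [h.1]
      ring)
  have z23 : w (b 2) (b 3) = 0 := q0
  have z13 : w (b 1) (b 3) = 0 := r2
  have z12 : w (b 1) (b 2) = 0 := neg_eq_zero.1 r3
  have z03 : w (b 0) (b 3) = 0 := neg_eq_zero.1 q2
  have z02 : w (b 0) (b 2) = 0 := q3
  obtain ⟨-, -, -, hone⟩ := coef_zero h b 0 0 0 1 (by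
    intro j
    fin_cases j
    · show _ * w (b 0) (b 0) + _ * w (b 1) (b 0) + _ * w (b 2) (b 0) + _ * w (b 3) (b 0) = 0
      rw [s30, z03]
      ring
    · show _ * w (b 0) (b 1) + _ * w (b 1) (b 1) + _ * w (b 2) (b 1) + _ * w (b 3) (b 1) = 0
      rw [s31, z13]
      ring
    · show _ * w (b 0) (b 2) + _ * w (b 1) (b 2) + _ * w (b 2) (b 2) + _ * w (b 3) (b 2) = 0
      rw [s32, z23]
      ring
    · show _ * w (b 0) (b 3) + _ * w (b 1) (b 3) + _ * w (b 2) (b 3) + _ * w (b 3) (b 3) = 0
      rw [h.1]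
      ring)
  exact one_ne_zero hone

/-- Forms and Gram data. -/
noncomputable def gramEquiv (b : Basis (Fin 4) F V) : ZZ F V ≃ {a : Fin 6 → F // pf a ≠ 0} where
  toFun w := ⟨six w.1 b, pf_ne w.2 b⟩
  invFun a := ⟨mk b a.1, mk_AN b a.1 a.2⟩
  left_inv w := by
    apply Subtype.ext
    apply b.ext
    intro i
    apply b.ext
    intro j
    exact gram_eq (mk_AN b _ (pf_ne w.2 b)) w.2 (six_mk b _) i j
  right_inv a := Subtype.ext (six_mk b a.1)

theorem card_two : Fintype.card {a : Fin 6 → ZMod 2 // a 0 * a 5 - a 1 * a 4 + a 2 * a 3 ≠ 0} = 28 := by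
  decide +kernel

theorem card_ZZ [FiniteDimensional F V] (h4 : finrank F V = 4) (h2 : Nat.card F = 2) :
    Nat.card (ZZ F V) = 28 := by
  let _ : Finite F := Nat.finite_of_card_ne_zero (by omega)
  let _ : Fintype F := Fintype.ofFinite F
  have hc : Fintype.card F = 2 := by rw [← Nat.card_eq_fintype_card]; exact h2
  let e : ZMod 2 ≃+* F := ZMod.ringEquivOfPrime F Nat.prime_two hc
  let b : Basis (Fin 4) F V := finBasisOfFinrankEq F V h4
  rw [Nat.card_congr (gramEquiv b)]
  have e2 : {a : Fin 6 → ZMod 2 // a 0 * a 5 - a 1 * a 4 + a 2 * a 3 ≠ 0} ≃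
      {a : Fin 6 → F // pf a ≠ 0} := by
    refine Equiv.subtypeEquiv (Equiv.arrowCongr (Equiv.refl _) e.toEquiv) ?_
    intro a
    have h1 : pf ((Equiv.arrowCongr (Equiv.refl (Fin 6)) e.toEquiv) a) =
        e (a 0 * a 5 - a 1 * a 4 + a 2 * a 3) := by
      rw [map_add, map_sub, map_mul, map_mul, map_mul]
      rfl
    rw [h1]
    exact (map_ne_zero_iff e e.injective).symm
  rw [← Nat.card_congr e2, Nat.card_eq_fintype_card, card_two]

/-! ### Orbits -/

theorem orbit_one [FiniteDimensional F V] (h4 : finrank F V = 4) (h2 : Nat.card F = 2) :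
    orb (V ≃ₗ[F] V) (ZZ F V) = 1 := by
  obtain ⟨hF, h11⟩ := two_field h2
  rw [orb, Nat.card_eq_one_iff_unique]
  constructor
  · constructor
    intro q q'
    induction q using Quotient.inductionOn with
    | _ w =>
      induction q' using Quotient.inductionOn with
      | _ w' =>
        apply Quotient.sound
        obtain ⟨i, v, hv, -⟩ := classify hF h11 h4 w.2 w.2
        obtain ⟨i', v', hv', -⟩ := classify hF h11 h4 w'.2 w'.2
        obtain ⟨g, hg, -⟩ := conj_pair h4 w' w w' w v' v (li_of_std w'.2 hv') (li_of_std w.2 hv)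
          (by rw [hv, hv']) (by rw [hv, hv'])
        exact ⟨g, hg⟩
  · have h28 := card_ZZ (V := V) h4 h2
    have : Nonempty (ZZ F V) := by
      by_contra hne
      rw [not_nonempty_iff] at hne
      rw [Nat.card_of_isEmpty] at h28
      omega
    obtain ⟨w⟩ := this
    exact ⟨Quotient.mk _ w⟩

theorem orbit_two [FiniteDimensional F V] (h4 : finrank F V = 4) (h2 : Nat.card F = 2) :
    orb (V ≃ₗ[F] V) (ZZ F V × ZZ F V) ≤ 3 := by
  obtain ⟨hF, h11⟩ := two_field h2
  have hcl : ∀ p : ZZ F V × ZZ F V, ∃ (i : Fin 3) (v : Fin 4 → V),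
      six p.1.1 v = ![1, 0, 0, 0, 0, 1] ∧ six p.2.1 v = cc i :=
    fun p => classify hF h11 h4 p.1.2 p.2.2
  choose f v hv1 hv2 using hcl
  have hinj : Function.Injective
      (fun q : MulAction.orbitRel.Quotient (V ≃ₗ[F] V) (ZZ F V × ZZ F V) => f (Quotient.out q)) := by
    intro q q' hq
    have hq' : f (Quotient.out q) = f (Quotient.out q') := hq
    obtain ⟨g, hg1, hg2⟩ := conj_pair h4 (Quotient.out q').1 (Quotient.out q).1
      (Quotient.out q').2 (Quotient.out q).2 (v (Quotient.out q')) (v (Quotient.out q))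
      (li_of_std (Quotient.out q').1.2 (hv1 _)) (li_of_std (Quotient.out q).1.2 (hv1 _))
      (by rw [hv1, hv1]) (by rw [hv2, hv2, hq'])
    rw [← Quotient.out_eq q, ← Quotient.out_eq q']
    apply Quotient.sound
    exact ⟨g, Prod.ext hg1 hg2⟩
  have h3 := Nat.card_le_card_of_injective _ hinj
  rw [Nat.card_eq_fintype_card (α := Fin 3), Fintype.card_fin] at h3
  exact h3

theorem finrank_pair {x y : V} (h : LinearIndependent F ![x, y]) :
    finrank F (span F ({x, y} : Set V)) = 2 := by
  have h1 := finrank_span_eq_card h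
  have h2 : Set.range ![x, y] = {x, y} := by
    rw [Matrix.range_cons, Matrix.range_cons, Matrix.range_empty, Set.union_empty]
    rfl
  rw [h2] at h1
  simpa using h1

theorem orbit_three [Finite F] [FiniteDimensional F V] (h4 : finrank F V = 4)
    (h2 : Nat.card F = 2) : 2 ≤ orb (V ≃ₗ[F] V) (Lns F V × ZZ F V) := by
  obtain ⟨hF, h11⟩ := two_field h2
  have h28 := card_ZZ (V := V) h4 h2
  have : Nonempty (ZZ F V) := by
    by_contra hne
    rw [not_nonempty_iff] at hne
    rw [Nat.card_of_isEmpty] at h28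
    omega
  obtain ⟨w⟩ := this
  obtain ⟨i, v, hv, -⟩ := classify hF h11 h4 w.2 w.2
  have hli := li_of_std w.2 hv
  have e0 : w.1 (v 0) (v 1) = 1 := congrFun hv 0
  have e1 : w.1 (v 0) (v 2) = 0 := congrFun hv 1
  have l1 : LinearIndependent F ![v 0, v 1] := by
    have h5 := hli.comp ![0, 1] (by decide)
    have h6 : v ∘ ![0, 1] = ![v 0, v 1] := by
      funext j
      fin_cases j <;> rfl
    rwa [h6] at h5
  have l2 : LinearIndependent F ![v 0, v 2] := by
    have h5 := hli.comp ![0, 2] (by decide)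
    have h6 : v ∘ ![0, 2] = ![v 0, v 2] := by
      funext j
      fin_cases j <;> rfl
    rwa [h6] at h5
  let L1 : Lns F V := ⟨span F {v 0, v 1}, finrank_pair l1⟩
  let L2 : Lns F V := ⟨span F {v 0, v 2}, finrank_pair l2⟩
  have hfin : Finite (MulAction.orbitRel.Quotient (V ≃ₗ[F] V) (Lns F V × ZZ F V)) := by
    unfold MulAction.orbitRel.Quotient
    exact Quotient.finite _
  have hnt : Nontrivial (MulAction.orbitRel.Quotient (V ≃ₗ[F] V) (Lns F V × ZZ F V)) := by
    refine ⟨Quotient.mk _ (L2, w), Quotient.mk _ (L1, w), ?_⟩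
    intro heq
    obtain ⟨g, hg⟩ := Quotient.exact heq
    have hg1 : im g L1.1 = L2.1 := congrArg Subtype.val (congrArg Prod.fst hg)
    have hg2 : g • w = w := congrArg Prod.snd hg
    have hx : g (v 0) ∈ L2.1 := by
      rw [← hg1]
      exact apply_mem_im (subset_span (by simp))
    have hy : g (v 1) ∈ L2.1 := by
      rw [← hg1]
      exact apply_mem_im (subset_span (by simp))
    obtain ⟨c, d, hcd⟩ := mem_span_pair.1 hx
    obtain ⟨c', d', hcd'⟩ := mem_span_pair.1 hy
    have h7 : w.1 (g (v 0)) (g (v 1)) = 1 := by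
      have h8 := smul_val g w (g (v 0)) (g (v 1))
      rw [hg2, inv_apply_self, inv_apply_self, e0] at h8
      exact h8
    rw [← hcd, ← hcd'] at h7
    simp only [map_add, map_smul, LinearMap.add_apply, LinearMap.smul_apply, smul_eq_mul,
      w.2.1, e1, w.2.skew (v 2) (v 0)] at h7
    apply one_ne_zero (α := F)
    rw [← h7]
    ring
  exact Finite.one_lt_card_iff_nontrivial.2 hnt

theorem f28 : GL4.F28 := by
  intro F _ _ V _ _ _ h4 h2
  exact ⟨ZZ F V, inferInstance, inferInstance, card_ZZ h4 h2, orbit_one h4 h2, orbit_two h4 h2,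
    orbit_three h4 h2⟩

end

end Pool.Agent.Helper33.F28
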